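import Pool.Agent.W206.ND.Stm
import Pool.Agent.H84R3.WeylCrit

set_option autoImplicit false

namespace Pool.Agent.W206.ND.AP

open MeasureTheory Filter Topology Set Pool.Agent.H84R3 ComplexConjugate

theorem ee_eq (k : ℤ) (y : ℝ) : ee (k * y) = (fourier k (y : Circ) : ℂ) := by
  rw [fourier_coe_eq]
  unfold ee ex
  congr 1
  push_cast
  ring

theorem conj_fourier (k : ℤ) (x : Circ) : conj (fourier k x : ℂ) = (fourier (-k) x : ℂ) := by
  rw [fourier_neg]

theorem maj (α β : ℝ) (hαβ : α ≤ β) (ε : ℝ) (hε : 0 < ε) :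
    ∃ (S : Finset ℤ) (q : ℤ → ℂ), (∀ y : ℝ, (∑ k ∈ S, q k * ee (k * y)).im = 0 ∧
      0 ≤ (∑ k ∈ S, q k * ee (k * y)).re ∧ (∑ k ∈ S, q k * ee (k * y)).re ≤ 2 ∧
      ((∃ n : ℤ, α ≤ y + n ∧ y + n ≤ β) → 1 ≤ (∑ k ∈ S, q k * ee (k * y)).re)) ∧
      (0 : ℤ) ∈ S ∧ (q 0).im = 0 ∧ (q 0).re < β - α + ε := by
  classical
  obtain ⟨δ, hδ0, hδε, hδ1⟩ : ∃ δ : ℝ, 0 < δ ∧ δ ≤ ε ∧ δ ≤ 1 :=
    ⟨min ε 1, by positivity, min_le_left _ _, min_le_right _ _⟩
  set K : Set Circ := Metric.closedBall (((α + β) / 2 : ℝ) : Circ) ((β - α) / 2) with hK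
  have hKc : IsClosed K := Metric.isClosed_closedBall
  have hKv : volume K ≤ ENNReal.ofReal (β - α) := by
    rw [hK, AddCircle.volume_closedBall]
    apply ENNReal.ofReal_le_ofReal
    refine (min_le_right _ _).trans (by linarith)
  obtain ⟨U, hKU, hUo, hUv⟩ : ∃ U ⊇ K, IsOpen U ∧ volume U < ENNReal.ofReal (β - α + δ / 4) :=
    K.exists_isOpen_lt_of_lt _ (lt_of_le_of_lt hKv
      ((ENNReal.ofReal_lt_ofReal_iff (by linarith)).2 (by linarith)))
  obtain ⟨g, hg0, hg1, hg01⟩ := exists_continuous_zero_one_of_isClosed hUo.isClosed_compl hKc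
    (by rw [disjoint_compl_left_iff_subset]; exact hKU)
  have hgi : ∫ x : Circ, g x ≤ β - α + δ / 4 := by
    have h2 : ∫ x : Circ, g x ≤ ∫ x : Circ, U.indicator (fun _ => (1 : ℝ)) x := by
      apply integral_mono
      · exact g.continuous.integrable_of_hasCompactSupport (HasCompactSupport.of_compactSpace _)
      · exact (integrable_indicator_iff hUo.measurableSet).2 (integrableOn_const (by simp))
      · intro x
        by_cases hx : x ∈ U
        · simp only [hx, indicator_of_mem]; exact (hg01 x).2
        · simp only [hx, not_false_eq_true, indicator_of_notMem]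
          exact le_of_eq (hg0 hx)
    rw [integral_indicator hUo.measurableSet] at h2
    simp only [integral_const, MeasurableSet.univ, measureReal_restrict_apply, univ_inter,
      smul_eq_mul, mul_one] at h2
    refine h2.trans ?_
    rw [Measure.real]
    exact ENNReal.toReal_le_of_le_ofReal (by linarith) hUv.le
  let h : C(Circ, ℂ) := ⟨fun x => ((g x + δ / 4 : ℝ) : ℂ), by fun_prop⟩
  have hhint : ∫ x : Circ, h x = (((∫ x : Circ, g x) + δ / 4 : ℝ) : ℂ) := by
    have h0 : ∫ x : Circ, h x = ((∫ x : Circ, (g x + δ / 4) : ℝ) : ℂ) := by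
      simp only [h, ContinuousMap.coe_mk]
      exact integral_ofReal
    rw [h0]
    congr 1
    rw [integral_add (g.continuous.integrable_of_hasCompactSupport
      (HasCompactSupport.of_compactSpace _)) (integrable_const _)]
    simp [Measure.real]
  have hcl : h ∈ (Submodule.span ℂ (range <| @fourier 1)).topologicalClosure := by
    rw [span_fourier_closure_eq_top]; trivial
  rw [← SetLike.mem_coe, Submodule.topologicalClosure_coe, Metric.mem_closure_iff] at hcl
  obtain ⟨f, hf, hfd⟩ := hcl (δ / 4) (by positivity)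
  obtain ⟨c, hc⟩ := (Finsupp.mem_span_range_iff_exists_finsupp).1 hf
  have hfh : ∀ x, ‖h x - f x‖ ≤ δ / 4 := fun x =>
    ((h - f).norm_coe_le_norm x).trans (by rw [← dist_eq_norm]; exact hfd.le)
  set S : Finset ℤ := (c.support ∪ c.support.image (fun k => -k)) ∪ {0} with hS
  have hSneg : ∀ k, k ∈ S ↔ -k ∈ S := by
    intro k
    simp only [hS, Finset.mem_union, Finset.mem_image, Finset.mem_singleton, neg_eq_zero]
    constructor
    · rintro ((h1 | ⟨a, h1, h2⟩) | h1)
      · exact Or.inl (Or.inr ⟨k, h1, rfl⟩)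
      · exact Or.inl (Or.inl (by rw [← h2, neg_neg]; exact h1))
      · exact Or.inr h1
    · rintro ((h1 | ⟨a, h1, h2⟩) | h1)
      · exact Or.inl (Or.inr ⟨-k, h1, neg_neg k⟩)
      · exact Or.inl (Or.inl (by rw [neg_inj] at h2; rw [← h2]; exact h1))
      · exact Or.inr h1
  have hfx : ∀ x : Circ, f x = ∑ k ∈ S, c k * (fourier k x : ℂ) := by
    intro x
    rw [← hc, Finsupp.sum_of_support_subset c (s := S) (by
      intro k hk
      simp only [hS, Finset.mem_union]
      exact Or.inl (Or.inl hk)) _ (by simp)]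
    simp [ContinuousMap.coe_sum]
  have hc0 : ∫ x : Circ, f x = c 0 := by
    simp_rw [hfx]
    rw [integral_finset_sum _ (fun k _ => by
      exact ((fourier k).continuous.integrable_of_hasCompactSupport
        (HasCompactSupport.of_compactSpace _)).const_mul _)]
    rw [Finset.sum_eq_single_of_mem (0 : ℤ) (by simp [hS])]
    · simp [Measure.real]
    · intro k _ hk
      rw [integral_const_mul, integral_fourier_eq_zero hk, mul_zero]
  have hre : (c 0).re ≤ β - α + δ / 4 + δ / 4 + δ / 4 := by
    have h3 : ‖(∫ x : Circ, f x) - ∫ x : Circ, h x‖ ≤ δ / 4 := by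
      rw [← integral_sub (f.continuous.integrable_of_hasCompactSupport
        (HasCompactSupport.of_compactSpace _))
        (h.continuous.integrable_of_hasCompactSupport (HasCompactSupport.of_compactSpace _))]
      calc ‖∫ x : Circ, (f x - h x)‖ ≤ δ / 4 * (volume : Measure Circ).real univ := by
            apply norm_integral_le_of_norm_le_const
            filter_upwards with x
            rw [norm_sub_rev]
            exact hfh x
        _ = δ / 4 := by simp [Measure.real]
    rw [hc0, hhint] at h3
    have h4 := (Complex.abs_re_le_norm _).trans h3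
    rw [Complex.sub_re, Complex.ofReal_re, abs_le] at h4
    linarith [h4.2]
  refine ⟨S, fun k => (c k + conj (c (-k))) / 2, ?_, by simp [hS], by simp, ?_⟩
  · intro y
    have key : ∑ k ∈ S, (c k + conj (c (-k))) / 2 * ee (k * y) = ((f (y : Circ)).re : ℂ) := by
      have h1 : ∑ k ∈ S, conj (c (-k)) * (fourier k (y : Circ) : ℂ) = conj (f (y : Circ)) := by
        rw [hfx, map_sum]
        refine Finset.sum_nbij' (fun k => -k) (fun k => -k) (fun k hk => (hSneg k).1 hk)
          (fun k hk => (hSneg k).1 hk) (fun k _ => neg_neg k) (fun k _ => neg_neg k) ?_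
        intro k _
        rw [map_mul, conj_fourier, neg_neg]
      have h2 : ∑ k ∈ S, (c k + conj (c (-k))) / 2 * ee (k * y) =
          (f (y : Circ) + conj (f (y : Circ))) / 2 := by
        rw [← h1, hfx, ← Finset.sum_add_distrib, Finset.sum_div]
        refine Finset.sum_congr rfl fun k _ => ?_
        rw [ee_eq]
        ring
      rw [h2, Complex.add_conj]
      push_cast
      ring
    rw [key]
    have h1 := (Complex.abs_re_le_norm _).trans (hfh (y : Circ))
    rw [Complex.sub_re, abs_le] at h1
    have h2 : (h (y : Circ)).re = g (y : Circ) + δ / 4 := by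
      simp only [h, ContinuousMap.coe_mk, Complex.ofReal_re]
    rw [h2] at h1
    have h3 := hg01 (y : Circ)
    simp only [mem_Icc] at h3
    refine ⟨by simp, ?_, ?_, ?_⟩
    · rw [Complex.ofReal_re]
      linarith [h1.2, h3.1]
    · rw [Complex.ofReal_re]
      linarith [h1.1, h3.2]
    · rintro ⟨n, hn1, hn2⟩
      rw [Complex.ofReal_re]
      have hyK : (y : Circ) ∈ K := by
        rw [hK, Metric.mem_closedBall, dist_eq_norm]
        have h5 : ((y : ℝ) : Circ) = ((y + n : ℝ) : Circ) := by
          rw [← sub_eq_zero, ← AddCircle.coe_sub, AddCircle.coe_eq_zero_iff]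
          refine ⟨-n, ?_⟩
          simp
        rw [h5, ← AddCircle.coe_sub]
        refine (QuotientAddGroup.norm_mk_le_norm).trans ?_
        rw [Real.norm_eq_abs, abs_le]
        constructor <;> linarith
      have h6 := hg1 hyK
      simp only [Pi.one_apply] at h6
      linarith [h1.2]
  · have : ((c 0 + conj (c (-0))) / 2).re = (c 0).re := by
      simp
    rw [this]
    linarith

theorem main : S_AP := by
  classical
  intro a c ha hac hc ε hε
  obtain ⟨S, q, hq, hq0, hq1, hq2⟩ := maj a c hac ε hε
  obtain ⟨S', q', hq', hq0', hq1', hq2'⟩ := maj c (1 + a) (by linarith) ε hε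
  have ext : ∀ (A B : Finset ℤ) (u : ℤ → ℂ) (y : ℝ), A ⊆ B →
      ∑ k ∈ B, (if k ∈ A then u k else 0) * ee (k * y) = ∑ k ∈ A, u k * ee (k * y) := by
    intro A B u y hAB
    rw [← Finset.sum_subset hAB (fun k _ hk => by rw [if_neg hk, zero_mul])]
    exact Finset.sum_congr rfl fun k hk => by rw [if_pos hk]
  have hq'' : ∀ y : ℝ, ∑ k ∈ S ∪ S', ((if k = 0 then 1 else 0) - (if k ∈ S' then q' k else 0)) *
      ee (k * y) = 1 - ∑ k ∈ S', q' k * ee (k * y) := by
    intro y
    rw [← ext S' (S ∪ S') q' y Finset.subset_union_right]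
    simp_rw [sub_mul]
    rw [Finset.sum_sub_distrib]
    congr 1
    rw [Finset.sum_eq_single_of_mem (0 : ℤ) (Finset.mem_union_left _ hq0)]
    · simp [ee]
    · intro k _ hk
      rw [if_neg hk, zero_mul]
  refine ⟨S ∪ S', fun k => (if k = 0 then 1 else 0) - (if k ∈ S' then q' k else 0),
    fun k => if k ∈ S then q k else 0, ?_, Finset.mem_union_left _ hq0, ?_, ?_, ?_, ?_⟩
  · intro y
    rw [ext S (S ∪ S') q y Finset.subset_union_left, hq'' y]
    obtain ⟨h1, h2, h3, h4⟩ := hq y
    obtain ⟨h1', h2', h3', h4'⟩ := hq' y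
    rw [Complex.sub_im, Complex.sub_re, Complex.one_im, Complex.one_re]
    have hf0 := Int.fract_nonneg y
    have hf1 := Int.fract_lt_one y
    have hf : y + ((-⌊y⌋ : ℤ) : ℝ) = Int.fract y := by
      rw [Int.fract]
      push_cast
      ring
    refine ⟨by rw [h1', sub_zero], h1, ?_, ?_, h3⟩
    · split_ifs with hI
      · linarith
      · have : 1 ≤ (∑ k ∈ S', q' k * ee (k * y)).re := by
          apply h4'
          rcases lt_or_ge (Int.fract y) a with h5 | h5
          · refine ⟨-⌊y⌋ + 1, ?_, ?_⟩
            · push_cast at hf ⊢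
              linarith
            · push_cast at hf ⊢
              linarith
          · have h6 : c ≤ Int.fract y := by
              by_contra h7
              exact hI ⟨h5, not_le.1 h7⟩
            refine ⟨-⌊y⌋, ?_, ?_⟩
            · rw [hf]; exact h6
            · rw [hf]; linarith
        linarith
    · split_ifs with hI
      · apply h4
        refine ⟨-⌊y⌋, ?_, ?_⟩
        · rw [hf]; exact hI.1
        · rw [hf]; exact hI.2.le
      · exact h2
  · simp only [if_true, if_pos hq0']
    rw [Complex.sub_im, hq1']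
    simp
  · simp only [if_pos hq0]
    exact hq1
  · simp only [if_true, if_pos hq0']
    rw [Complex.sub_re, Complex.one_re]
    linarith
  · simp only [if_pos hq0]
    exact hq2

end Pool.Agent.W206.ND.AP
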