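import Pool.Agent.W206.ND.Stm

set_option autoImplicit false

namespace Pool.Agent.W206.ND

open Filter Topology

/-- theorem for one number -/
def One : Prop := ∀ (b : ℕ) (x : ℝ), 2 ≤ b → (∀ r : ℚ, UZ b (x + r)) → ∀ t : ℤ, t ≠ 0 → AV b x t

theorem uz_of_nt {b : ℕ} (hb : 2 ≤ b) {x : ℝ} (h : NT b ![x]) : UZ b x := by
  intro ε hε
  have h1 := h 1 le_rfl (fun _ _ => ⟨0, by omega⟩)
  have h2 := h1.eventually (gt_mem_nhds (show (1 / (b : ℝ) ^ (1 * 1)) < 1 / (b : ℝ) + ε by
    simp; exact hε))
  filter_upwards [h2, eventually_gt_atTop 0] with N hN hN0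
  have hN' : (0 : ℝ) < N := by exact_mod_cast hN0
  rw [div_lt_iff₀ hN'] at hN
  refine le_trans (le_of_eq ?_) hN.le
  unfold Z0
  congr 2
  ext i
  simp

theorem av_mul {b : ℕ} {x : ℝ} {t : ℤ} : AV b (t * x) 1 ↔ AV b x t := by
  unfold AV
  simp

theorem asm (one : One) (nm : S_NM) (wc : S_WC)
    (wl : ∀ (b : ℕ) (x : ℝ), 2 ≤ b → (∀ t : ℤ, t ≠ 0 → AV b x t) → ∀ r : ℚ, UZ b (x + r)) :
    Fin_Stm := by
  intro b hb
  have hone : ∀ x : ℝ, (∀ r : ℚ, UZ b (x + r)) → AV b x 1 := fun x hx => one b x hb hx 1 one_ne_zero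
  have h2 : ∀ (n : ℕ) (ξ : Fin n → ℝ),
      NT b ξ ↔ ∀ h : Fin n → ℤ, h ≠ 0 → ∀ r : ℚ, UZ b (∑ j, (h j : ℝ) * ξ j + r) := by
    intro n ξ
    constructor
    · intro hn h hh r
      refine wl b _ hb (fun t ht => ?_) r
      rw [← av_mul]
      have := wc b n ξ hb hn (fun j => t * h j) (by
        intro h0
        apply hh
        funext j
        have := congrFun h0 j
        simpa [ht] using this)
      convert this using 1
      rw [Finset.mul_sum]
      refine Finset.sum_congr rfl fun j _ => ?_
      push_cast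
      ring
    · intro h
      exact nm b n ξ hb fun k hk => hone _ (h k hk)
  refine ⟨⟨fun h x hx hi => uz_of_nt hb (h 1 ![x] ?_ ?_), fun h n α hα hli => ?_⟩, h2, fun x => ?_⟩
  · intro j
    have : j = 0 := Subsingleton.elim _ _
    subst this
    simpa using hx
  · rw [LinearIndependent.pair_iff' one_ne_zero]
    intro a ha
    apply hi
    exact ⟨a, by simpa [Algebra.smul_def] using ha⟩
  · rw [h2]
    intro k hk r
    refine h _ ?_ ?_
    · rw [isAlgebraic_iff_isIntegral]
      refine IsIntegral.add (IsIntegral.sum _ fun j _ => ?_) ?_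
      · refine IsIntegral.mul ?_ (hα j).isIntegral
        have := isIntegral_algebraMap (R := ℚ) (A := ℝ) (x := (k j : ℚ))
        simpa using this
      · have := isIntegral_algebraMap (R := ℚ) (A := ℝ) (x := r)
        simpa using this
    · rintro ⟨q, hq⟩
      have h3 := Fintype.linearIndependent_iff.1 hli
        (Matrix.vecCons (r - q) (fun j => (k j : ℚ))) (by
          rw [Fin.sum_univ_succ]
          simp only [Matrix.cons_val_zero, Matrix.cons_val_succ, Algebra.smul_def, eq_ratCast]
          push_cast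
          linarith)
      apply hk
      funext j
      have h4 := h3 j.succ
      simpa using h4
  · constructor
    · intro hn r
      have := (h2 1 ![x]).1 hn (fun _ => 1) (by
        intro h0
        exact one_ne_zero (congrFun h0 0)) r
      simpa using this
    · intro h
      refine nm b 1 ![x] hb fun k hk => ?_
      have hk0 : k 0 ≠ 0 := by
        intro h0
        apply hk
        funext j
        have : j = 0 := Subsingleton.elim _ _
        subst this
        simpa using h0
      have := one b x hb h (k 0) hk0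
      rw [← av_mul] at this
      simpa using this

end Pool.Agent.W206.ND
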