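import Pool.Agent.W206.ND.Asm
import Pool.Agent.W856.ND.DG
import Pool.Agent.W371.ND.CY
import Pool.Agent.W351.ND.BD
import Pool.Agent.W834.ND.MN
import Pool.Agent.W802.ND.MX
import Pool.Agent.W511.ND.CR
import Pool.Agent.W386.ND.SH
import Pool.Agent.W705.ND.TA
import Pool.Agent.W162.ND.WB
import Pool.Agent.W92.ND.DM
import Pool.Agent.W736.ND.NM
import Pool.Agent.W473.ND.WC
import Pool.Agent.W554.ND.VC
import Pool.Agent.W471.ND.WL

set_option autoImplicit false

namespace Pool.Agent.W206.ND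

theorem one : One := W705.ND.TA.main (W511.ND.CR.main W856.ND.DG.zf W371.ND.CY.main
  W351.ND.BD.main W834.ND.MN.main W802.ND.MX.main) W386.ND.SH.main

theorem final_of (ap : S_AP) : Fin_Stm :=
  asm one (W736.ND.NM.main ap W856.ND.DG.main W162.ND.WB.main W92.ND.DM.main)
    (W473.ND.WC.main W856.ND.DG.main W92.ND.DM.main)
    (W471.ND.WL.main W554.ND.VC.main W162.ND.WB.main ap W856.ND.DG.zf)

end Pool.Agent.W206.ND
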