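import Mathlib

/-!
# Normality of tuples of algebraic numbers and the frequency of the digit `0`

Definitions and exact statements of the parts.
-/

set_option autoImplicit false

namespace Pool.Agent.W206.ND

open Filter Topology

/-- `e(z) = exp(2 π i z)` -/
noncomputable def ee (z : ℝ) : ℂ := Complex.exp (2 * Real.pi * Complex.I * (z : ℂ))

/-- The tuple `ξ` is normal to base `b` (verbatim the condition in the frozen statement): every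
digit matrix `D` has frequency `b ^ (-(m * n))`. -/
def NT (b : ℕ) {n : ℕ} (ξ : Fin n → ℝ) : Prop :=
  ∀ (m : ℕ), 1 ≤ m → ∀ D : Fin n → Fin m → Fin b,
    Filter.Tendsto
      (fun N : ℕ =>
        (((Finset.filter
            (fun i : ℕ => ∀ j : Fin n, ∀ t : Fin m,
              Int.floor (ξ j * (b : ℝ) ^ (i + (t : ℕ))) % (b : ℤ) = (((D j t : ℕ)) : ℤ))
            (Finset.Icc 1 N)).card : ℝ) / (N : ℝ)))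
      Filter.atTop (nhds (1 / (b : ℝ) ^ (m * n)))

/-- the number of zeros among the first `N` base-`b` digits of `x` -/
noncomputable def Z0 (b : ℕ) (x : ℝ) (N : ℕ) : ℕ :=
  (Finset.filter (fun i : ℕ => Int.floor (x * (b : ℝ) ^ i) % (b : ℤ) = 0) (Finset.Icc 1 N)).card

/-- the upper frequency of the digit `0` in `x` is at most `1 / b` -/
def UZ (b : ℕ) (x : ℝ) : Prop :=
  ∀ ε : ℝ, 0 < ε → ∀ᶠ N : ℕ in atTop, (Z0 b x N : ℝ) ≤ (1 / (b : ℝ) + ε) * N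

/-- the averages of `e(t b^i x)` tend to `0` -/
def AV (b : ℕ) (x : ℝ) (t : ℤ) : Prop :=
  Tendsto (fun N : ℕ => (∑ i ∈ Finset.range N, ee (t * x * (b : ℝ) ^ i)) / (N : ℂ)) atTop (𝓝 0)

open Classical in
/-- the indicator of `{y} < 1 / b` -/
noncomputable def ff (b : ℕ) (y : ℝ) : ℝ := if Int.fract y < 1 / (b : ℝ) then 1 else 0

/-- the twisted sum over the translates by `w / v` -/
noncomputable def KK (b v : ℕ) (s : ℤ) (y : ℝ) : ℂ :=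
  ∑ w ∈ Finset.range v, ee (-(s * w / v : ℝ)) * (ff b (y + w / v) : ℂ)

/-- **DG** (digits and fractional parts) -/
def S_DG : Prop := ∀ (b : ℕ) (y : ℝ) (d : ℕ), 2 ≤ b → d < b →
  (Int.floor (y * b) % (b : ℤ) = d ↔
    (d : ℝ) / b ≤ Int.fract y ∧ Int.fract y < ((d : ℝ) + 1) / b)

/-- **ZF** (zeros and fractional parts) -/
def S_ZF : Prop := ∀ (b : ℕ) (x : ℝ) (N : ℕ), 2 ≤ b →
  (Z0 b x N : ℝ) = ∑ n ∈ Finset.range N, ff b (x * (b : ℝ) ^ n)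

/-- **CY** (the lattice points in a cell form a progression) -/
def S_CY : Prop := ∀ (b v : ℕ) (y : ℝ), 2 ≤ b → 1 ≤ v → ∃ (m : ℕ) (z₀ : ℝ),
  0 ≤ z₀ ∧ z₀ * v < 1 ∧ (v : ℤ) - b < b * m ∧ (b : ℤ) * m < v + b ∧
  (∑ w ∈ Finset.range v, ff b (y + w / v) = m) ∧
  ∀ s : ℤ, KK b v s y = ee (s * y) * ∑ k ∈ Finset.range m, ee (-(s * (z₀ + k / v)))

/-- **BD** (the bound for the other classes) -/
def S_BD : Prop := ∀ (b : ℕ) (t : ℤ), 2 ≤ b → ¬ (b : ℤ) ∣ t → ∃ C : ℝ, ∃ L₀ : ℕ, ∀ (L i m : ℕ),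
  L₀ ≤ L → 1 ≤ i → i < L → ((b ^ L - 1 : ℕ) : ℤ) - b < b * m →
  (b : ℤ) * m < ((b ^ L - 1 : ℕ) : ℤ) + b → ∀ z₀ : ℝ,
  ‖∑ k ∈ Finset.range m, ee (-((t * (b : ℝ) ^ i) * (z₀ + k / ((b ^ L - 1 : ℕ) : ℝ))))‖ ≤ C

/-- **MN** (the main term) -/
def S_MN : Prop := ∀ (b : ℕ) (t : ℤ), 2 ≤ b → ¬ (b : ℤ) ∣ t → ∃ (c : ℂ) (C : ℝ), c ≠ 0 ∧
  ∀ (v m : ℕ) (z₀ : ℝ), 1 ≤ v → 0 ≤ z₀ → z₀ * v < 1 → (v : ℤ) - b < b * m →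
  (b : ℤ) * m < v + b →
  ‖∑ k ∈ Finset.range m, ee (-(t * (z₀ + k / v))) - v * c‖ ≤ C

/-- **MX** (the mixing identity) -/
def S_MX : Prop := ∀ (b L N : ℕ) (t : ℤ) (x : ℝ), 2 ≤ b → 1 ≤ L →
  ∑ u ∈ Finset.range (b ^ L - 1), ee (-(t * u / ((b ^ L - 1 : ℕ) : ℝ))) *
      ((∑ n ∈ Finset.range N, ff b ((x + u / ((b ^ L - 1 : ℕ) : ℝ)) * (b : ℝ) ^ n) : ℝ) : ℂ) =
    ∑ n ∈ Finset.range N, KK b (b ^ L - 1) (t * (b : ℤ) ^ (L - n % L)) (x * (b : ℝ) ^ n)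

/-- **CR** (the core estimate) -/
def S_CR : Prop := S_ZF → S_CY → S_BD → S_MN → S_MX → ∀ (b : ℕ) (t : ℤ), 2 ≤ b →
  ¬ (b : ℤ) ∣ t → ∃ (C : ℝ) (L₀ : ℕ), ∀ L : ℕ, L₀ ≤ L → ∀ x : ℝ, (∀ r : ℚ, UZ b (x + r)) →
  ∀ ε : ℝ, 0 < ε → ∀ᶠ N : ℕ in atTop,
    ‖∑ n ∈ (Finset.range N).filter (fun n => n % L = 0), ee (t * x * (b : ℝ) ^ n)‖ ≤
      (C / ((b : ℝ) ^ L) + ε) * N

/-- **SH** (shifts) -/
def S_SH : Prop := ∀ (b c : ℕ) (x : ℝ), 2 ≤ b → (∀ r : ℚ, UZ b (x + r)) →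
  ∀ r : ℚ, UZ b (x * (b : ℝ) ^ c + r)

/-- **TA** (theorem for one number) -/
def S_TA : Prop := (∀ (b : ℕ) (t : ℤ), 2 ≤ b →
  ¬ (b : ℤ) ∣ t → ∃ (C : ℝ) (L₀ : ℕ), ∀ L : ℕ, L₀ ≤ L → ∀ x : ℝ, (∀ r : ℚ, UZ b (x + r)) →
  ∀ ε : ℝ, 0 < ε → ∀ᶠ N : ℕ in atTop,
    ‖∑ n ∈ (Finset.range N).filter (fun n => n % L = 0), ee (t * x * (b : ℝ) ^ n)‖ ≤
      (C / ((b : ℝ) ^ L) + ε) * N) → S_SH →
  ∀ (b : ℕ) (x : ℝ), 2 ≤ b → (∀ r : ℚ, UZ b (x + r)) → ∀ t : ℤ, t ≠ 0 → AV b x t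

/-- **AP** (trigonometric majorants and minorants of intervals) -/
def S_AP : Prop := ∀ (a c : ℝ), 0 ≤ a → a ≤ c → c ≤ 1 → ∀ ε : ℝ, 0 < ε →
  ∃ (S : Finset ℤ) (p q : ℤ → ℂ),
    (∀ y : ℝ, (∑ k ∈ S, p k * ee (k * y)).im = 0 ∧ (∑ k ∈ S, q k * ee (k * y)).im = 0 ∧
      (∑ k ∈ S, p k * ee (k * y)).re ≤ (if a ≤ Int.fract y ∧ Int.fract y < c then 1 else 0) ∧
      (if a ≤ Int.fract y ∧ Int.fract y < c then 1 else 0) ≤ (∑ k ∈ S, q k * ee (k * y)).re ∧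
      (∑ k ∈ S, q k * ee (k * y)).re ≤ 2) ∧
    (0 : ℤ) ∈ S ∧ (p 0).im = 0 ∧ (q 0).im = 0 ∧ c - a - ε < (p 0).re ∧ (q 0).re < c - a + ε

/-- **WB** (Weyl's criterion for boxes) -/
def S_WB : Prop := S_AP → ∀ (n : ℕ) (p : ℕ → Fin n → ℝ),
  (∀ h : Fin n → ℤ, h ≠ 0 → Tendsto (fun N : ℕ => (∑ i ∈ Finset.range N,
    ee (∑ j, (h j : ℝ) * p i j)) / (N : ℂ)) atTop (𝓝 0)) →
  ∀ (a c : Fin n → ℝ), (∀ j, 0 ≤ a j ∧ a j ≤ c j ∧ c j ≤ 1) →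
    Tendsto (fun N : ℕ => (((Finset.range N).filter
      (fun i => ∀ j, a j ≤ Int.fract (p i j) ∧ Int.fract (p i j) < c j)).card : ℝ) / N)
      atTop (𝓝 (∏ j, (c j - a j)))

/-- **DM** (digit matrices and boxes) -/
def S_DM : Prop := S_DG → ∀ (b n m : ℕ) (D : Fin n → Fin m → Fin b), 2 ≤ b →
  ∃ a : Fin n → ℝ, (∀ j, 0 ≤ a j ∧ a j + 1 / (b : ℝ) ^ m ≤ 1) ∧
    ∀ (ξ : Fin n → ℝ) (i : ℕ),
      (∀ j : Fin n, ∀ t : Fin m,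
        Int.floor (ξ j * (b : ℝ) ^ (i + 1 + (t : ℕ))) % (b : ℤ) = (((D j t : ℕ)) : ℤ)) ↔
      ∀ j, a j ≤ Int.fract (ξ j * (b : ℝ) ^ i) ∧
        Int.fract (ξ j * (b : ℝ) ^ i) < a j + 1 / (b : ℝ) ^ m

/-- **NM** (normality from exponential sums) -/
def S_NM : Prop := ∀ (b n : ℕ) (ξ : Fin n → ℝ), 2 ≤ b →
  (∀ h : Fin n → ℤ, h ≠ 0 → AV b (∑ j, (h j : ℝ) * ξ j) 1) → NT b ξ

/-- **WC** (exponential sums from normality) -/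
def S_WC : Prop := ∀ (b n : ℕ) (ξ : Fin n → ℝ), 2 ≤ b → NT b ξ →
  ∀ h : Fin n → ℤ, h ≠ 0 → AV b (∑ j, (h j : ℝ) * ξ j) 1

/-- **VC** (exponential sums along arithmetic progressions) -/
def S_VC : Prop := ∀ (b : ℕ) (x : ℝ), 2 ≤ b → (∀ t : ℤ, t ≠ 0 → AV b x t) →
  ∀ (t : ℤ) (L c : ℕ), t ≠ 0 → 1 ≤ L →
    Tendsto (fun N : ℕ => (∑ i ∈ Finset.range N, ee (t * (x * (b : ℝ) ^ (L * i + c)))) / (N : ℂ))
      atTop (𝓝 0)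

/-- **WL** (rational translates) -/
def S_WL : Prop := S_VC → S_WB → S_AP → S_ZF → ∀ (b : ℕ) (x : ℝ), 2 ≤ b →
  (∀ t : ℤ, t ≠ 0 → AV b x t) → ∀ r : ℚ, UZ b (x + r)

/-- the final statement -/
def Fin_Stm : Prop := ∀ b : ℕ, 2 ≤ b →
  ((∀ (n : ℕ) (α : Fin n → ℝ), (∀ j, IsAlgebraic ℚ (α j)) →
      LinearIndependent ℚ (Matrix.vecCons (1 : ℝ) α) → NT b α) ↔
    ∀ x : ℝ, IsAlgebraic ℚ x → Irrational x → UZ b x) ∧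
  (∀ (n : ℕ) (ξ : Fin n → ℝ),
    NT b ξ ↔ ∀ h : Fin n → ℤ, h ≠ 0 → ∀ r : ℚ, UZ b (∑ j, (h j : ℝ) * ξ j + r)) ∧
  ∀ x : ℝ, NT b ![x] ↔ ∀ r : ℚ, UZ b (x + r)

end Pool.Agent.W206.ND
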